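import Pool.Agent.H75.OM.TC

/-!
# MP_0f8dca_lc, module ALE: alternating quantifiers over strings of length exactly `t`
-/

set_option autoImplicit false

namespace Pool.Agent.H36.OMN

open Finset Pool.Agent.H6.NB Pool.Agent.H70.OQ Pool.Agent.H70.EH Pool.Agent.H70.EI
open Pool.Agent.H78.XQ Pool.Agent.H75.OM

open Classical in
theorem ale_aux (h1 : Pool.Agent.H6.NB.T_CLB) (X : Type)
    (S t d : ℕ) (hS : 2 ≤ S) (ht : 2 ^ t ≤ S) :
    ∀ (k : ℕ) (b : Bool) (g : List (List Bool) → (X → Bool) → Bool),
      (∀ ws, ws.length = k → (∀ w ∈ ws, w.length = t) → Cl X S d (g ws)) →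
      ∃ c : Bool, Cl X S (d + k) fun y =>
        xor c (decide (Alt (fun w => w.length = t) b k fun ws => g ws y = true)) := by
  obtain ⟨Ws, hW1, hW2⟩ : ∃ Ws : List (List Bool), Ws.length ≤ 2 ^ t ∧
      ∀ w : List Bool, w.length = t → w ∈ Ws := by
    refine ⟨(Finset.univ : Finset (Fin t → Bool)).toList.map List.ofFn, ?_, ?_⟩
    · rw [List.length_map, Finset.length_toList, Finset.card_univ, Fintype.card_fun,
        Fintype.card_bool, Fintype.card_fin]
    · rintro w rfl
      refine List.mem_map.2 ⟨w.get, ?_, List.ofFn_get w⟩
      rw [Finset.mem_toList]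
      exact Finset.mem_univ _
  obtain ⟨-, -, -, hgate, -⟩ := h1 X S hS
  intro k
  induction k with
  | zero =>
    intro b g hg
    refine ⟨false, ?_⟩
    have h0 := hg [] rfl (by simp)
    have : (fun y => xor false (decide (Alt (fun w => w.length = t) b 0
        fun ws => g ws y = true))) = g [] := by
      funext y
      simp [Alt]
    rw [this]
    exact h0
  | succ k ih =>
    intro b g hg
    have key : ∀ w : List Bool, ∃ c : Bool, w.length = t → Cl X S (d + k) fun y =>
        xor c (decide (Alt (fun w => w.length = t) (!b) k fun ws => g (w :: ws) y = true)) := by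
      intro w
      by_cases hw : w.length = t
      · obtain ⟨c, hc⟩ := ih (!b) (fun ws => g (w :: ws)) fun ws hws hws2 =>
          hg (w :: ws) (by simp [hws]) (by
            intro w' hw'
            rcases List.mem_cons.1 hw' with rfl | h
            · exact hw
            · exact hws2 _ h)
        exact ⟨c, fun _ => hc⟩
      · exact ⟨false, fun h => absurd h hw⟩
    choose c hc using key
    have hlen : (Ws.filter fun w => w.length = t).length ≤ S :=
      (List.length_filter_le _ _).trans (hW1.trans ht)
    cases b with
    | true =>
      refine ⟨false, ?_⟩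
      refine hgate (d + k) ((Ws.filter fun w => w.length = t).map fun w =>
        (fun y => xor (c w) (decide (Alt (fun w => w.length = t) false k
          fun ws => g (w :: ws) y = true)), !c w)) _ (by simpa using hlen) ?_ ?_
      · intro p hp
        obtain ⟨w, hw, rfl⟩ := List.mem_map.1 hp
        have hw2 : w.length = t := by simpa using (List.mem_filter.1 hw).2
        exact hc w hw2
      · intro y
        simp only [Bool.false_xor, decide_eq_true_eq, List.mem_map, Alt]
        constructor
        · rintro ⟨w, hw, ha⟩
          refine ⟨_, ⟨w, List.mem_filter.2 ⟨hW2 w hw, by simpa using hw⟩, rfl⟩, ?_⟩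
          simp [ha]
        · rintro ⟨_, ⟨w, hw, rfl⟩, he⟩
          have hw2 : w.length = t := by simpa using (List.mem_filter.1 hw).2
          refine ⟨w, hw2, ?_⟩
          by_contra ha
          simp [ha] at he
    | false =>
      refine ⟨true, ?_⟩
      refine hgate (d + k) ((Ws.filter fun w => w.length = t).map fun w =>
        (fun y => xor (c w) (decide (Alt (fun w => w.length = t) true k
          fun ws => g (w :: ws) y = true)), c w)) _ (by simpa using hlen) ?_ ?_
      · intro p hp
        obtain ⟨w, hw, rfl⟩ := List.mem_map.1 hp
        have hw2 : w.length = t := by simpa using (List.mem_filter.1 hw).2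
        exact hc w hw2
      · intro y
        simp only [Bool.true_xor, Bool.not_eq_true', decide_eq_false_iff_not, List.mem_map, Alt]
        constructor
        · intro h
          push Not at h
          obtain ⟨w, hw, ha⟩ := h
          refine ⟨_, ⟨w, List.mem_filter.2 ⟨hW2 w hw, by simpa using hw⟩, rfl⟩, ?_⟩
          simp [ha]
        · rintro ⟨_, ⟨w, hw, rfl⟩, he⟩ h
          have hw2 : w.length = t := by simpa using (List.mem_filter.1 hw).2
          have ha := h w hw2
          simp [ha] at he

open Classical in
theorem pf_ALE (h1 : Pool.Agent.H6.NB.T_CLB) : T_ALE := by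
  intro X S t d k g hS ht hg
  obtain ⟨-, hmono, -, hgate, -⟩ := h1 X S hS
  obtain ⟨c, hc⟩ := ale_aux h1 X S t d hS ht k true g hg
  cases c with
  | false =>
    refine hmono (d + k) (d + k + 1) _ (Nat.le_succ _) ?_
    simpa only [Bool.false_xor] using hc
  | true =>
    refine hgate (d + k) [(_, false)] _ (by simp; omega) (by
      intro p hp
      rw [List.mem_singleton] at hp
      subst hp
      exact hc) ?_
    intro y
    by_cases h : Alt (fun w => w.length = t) true k fun ws => g ws y = true
    · simp [h]
    · simp [h]

end Pool.Agent.H36.OMN
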