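import Pool.Agent.H75.OM.TC

/-!
# MP_0f8dca_lc, module THR: circuits for thresholds
-/

set_option autoImplicit false

namespace Pool.Agent.H36.OMN

open Finset Pool.Agent.H6.NB Pool.Agent.H70.OQ Pool.Agent.H70.EH Pool.Agent.H70.EI
open Pool.Agent.H78.XQ Pool.Agent.H75.OM

theorem cm_mono {n s s' : ℕ} {f : List Bool → Bool} (h : Cm n s f) (hs : s ≤ s') : Cm n s' f := by
  obtain ⟨C, h1, h2, h3, h4⟩ := h
  exact ⟨C, h1, h2, h3.trans hs, h4⟩

theorem cm_congr {n s : ℕ} {f g : List Bool → Bool} (h : Cm n s f)
    (hfg : ∀ x : List Bool, x.length = n → f x = g x) : Cm n s g := by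
  obtain ⟨C, h1, h2, h3, h4⟩ := h
  exact ⟨C, h1, h2, h3, fun x hx => (h4 x hx).trans (hfg x hx)⟩

/-- the value of the low digits -/
def low (j : ℕ) (b : List Bool) : ℕ :=
  ∑ i ∈ Finset.range j, (if b.getD i false then 2 ^ i else 0)

theorem low_lt (j : ℕ) (b : List Bool) : low j b < 2 ^ j := by
  induction j with
  | zero => simp [low]
  | succ j ih =>
    have h1 : low (j + 1) b = low j b + if b.getD j false then 2 ^ j else 0 := by
      unfold low
      rw [Finset.sum_range_succ]
    rw [h1, pow_succ]
    split_ifs <;> omega

theorem cm_two (h1 : T_CMC) {n s t u : ℕ} {f : List Bool → Bool} (g g' : List Bool → Bool)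
    (hf : Cm 2 s f) (hg : Cm n t g) (hg' : Cm n u g') :
    Cm n (s + (t + u)) fun x => f [g x, g' x] := by
  have h := h1 n 2 s (fun j => if j = 0 then t else u) f (fun j => if j = 0 then g else g') hf (by
    intro j hj
    interval_cases j
    · exact hg
    · exact hg')
  have h2 : ∑ j ∈ Finset.range 2, (if j = 0 then t else u) = t + u := by
    rw [Finset.sum_range_succ, Finset.sum_range_succ]
    simp
  rw [h2] at h
  exact h

theorem pf_THR (h1 : T_CMC) (h2 : Pool.Agent.H75.OM.T_CMB) : T_THR := by
  obtain ⟨hproj, hconst, hnot, hand, hor, -, -⟩ := h2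
  intro r W
  have key : ∀ j, Cm r (8 * j + 2) fun b => decide (low j b < W % 2 ^ j) := by
    intro j
    induction j with
    | zero =>
      refine cm_congr (hconst r false) fun x _ => ?_
      symm
      rw [decide_eq_false_iff_not]
      simp [Nat.mod_one]
    | succ j ih =>
      have hn : Cm r 3 fun x => !x.getD j false := by
        have h := h1 r 1 1 (fun _ => 2) (fun x => !x.getD 0 false) (fun _ x => x.getD j false)
          hnot fun _ _ => hproj r j
        rw [Finset.sum_range_one] at h
        exact h
      have hlow : ∀ b : List Bool, low (j + 1) b =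
          low j b + if b.getD j false then 2 ^ j else 0 := by
        intro b
        unfold low
        rw [Finset.sum_range_succ]
      have hdig : W / 2 ^ j % 2 = 0 ∨ W / 2 ^ j % 2 = 1 := by omega
      have hmod := Nat.mod_pow_succ (b := 2) (k := j) (x := W)
      rcases hdig with h0 | h0
      · rw [h0, mul_zero, add_zero] at hmod
        have h := cm_two h1 (fun x => !x.getD j false)
          (fun b => decide (low j b < W % 2 ^ j)) hand hn ih
        refine cm_congr (cm_mono h (by omega)) fun x _ => ?_
        rw [hlow, hmod]
        have hm : W % 2 ^ j < 2 ^ j := Nat.mod_lt _ (by positivity)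
        simp only [List.getD_cons_zero, List.getD_cons_succ]
        cases hb : x.getD j false
        · simp
        · simp only [Bool.not_true, Bool.false_and, if_true]
          symm
          rw [decide_eq_false_iff_not]
          omega
      · rw [h0, mul_one] at hmod
        have h := cm_two h1 (fun x => !x.getD j false)
          (fun b => decide (low j b < W % 2 ^ j)) hor hn ih
        refine cm_congr (cm_mono h (by omega)) fun x _ => ?_
        rw [hlow, hmod]
        have hl := low_lt j x
        simp only [List.getD_cons_zero, List.getD_cons_succ]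
        cases hb : x.getD j false
        · simp only [Bool.not_false, Bool.true_or]
          symm
          rw [decide_eq_true_iff, if_neg (by simp)]
          omega
        · simp only [Bool.not_true, Bool.false_or, if_true]
          congr 1
          rw [eq_iff_iff]
          omega
  by_cases hW : W < 2 ^ r
  · have h := key r
    rw [Nat.mod_eq_of_lt hW] at h
    exact cm_mono h (by omega)
  · refine cm_congr (cm_mono (hconst r true) (by omega)) fun x _ => ?_
    unfold thr
    symm
    rw [decide_eq_true_iff]
    exact (low_lt r x).trans_le (not_lt.1 hW)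

end Pool.Agent.H36.OMN
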